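import Pool.Agent.H20.ER3.Lib

/-!
# MP_816b90_co: Operation C, row C2 (contraction of a corner)
-/

set_option autoImplicit false

namespace Pool.Agent.H27.ER3

open Pool.Agent.H48.ER Pool.Agent.H52.ER2 Pool.Agent.H66.ER2 Pool.Agent.H20.ER3

theorem pf_C2 (hPX : U_PX) (hPR : U_PR) (hGE : U_GE) : U_C2 := by
  intro V _ H R n g l hE hM hl1 hln hin hlR h1R
  by_contra h2R
  have hp := hM.pi
  have pos : ∀ i, 1 ≤ n i := hp.pos
  -- parity of `l`
  have hodd : Odd l := by
    have h := hPX _ _ n g 0 1 l 0 hp (by decide) hln (Nat.zero_le _)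
      (fun h => by have := pos 1; omega)
    have h' := hGE V H R (l + 1 + 0) _ _ _ hE h (by omega) hlR h1R ?_
    · rcases Nat.even_or_odd l with h0 | h0
      · exfalso
        rw [Nat.even_iff] at h' h0
        omega
      · exact h0
    · rintro w (⟨x, _, hx, rfl⟩ | ⟨x, _, hx, rfl⟩)
      · rcases Nat.lt_or_ge x l with h0 | h0
        · exact Or.inr (Or.inr (hin x h0))
        · have : x = l := by omega
          subst this
          exact Or.inl rfl
      · have : x = 0 := by omega
        subst this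
        exact Or.inr (Or.inl rfl)
  -- the vertices of the interval
  obtain ⟨r0, hr0, _⟩ := hin 0 (by omega)
  have hch : ∀ x, ∃ r, x < l → r ∈ R ∧ g 0 x = Sum.inl r := by
    intro x
    by_cases hx : x < l
    · obtain ⟨r, hr, he⟩ := hin x hx
      exact ⟨r, fun _ => ⟨hr, he⟩⟩
    · exact ⟨r0, fun h => absurd h hx⟩
  choose r hr using hch
  obtain ⟨F, hF⟩ : ∃ F : Set V, F = {v | ∃ x, x < l ∧ r x = v} := ⟨_, rfl⟩
  have hFm : ∀ v, v ∈ F ↔ ∃ x, x < l ∧ r x = v := fun v => by rw [hF]; exact Iff.rfl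
  have hFR : F ⊆ R := by
    intro v hv
    obtain ⟨x, hx, rfl⟩ := (hFm v).1 hv
    exact (hr x hx).1
  have hFC : Cn H F := by
    have : IP H (l - 1) (r 0) (r (l - 1)) F := by
      refine ⟨r, rfl, rfl, ?_, ?_, ?_⟩
      · intro i j hi hj e
        have h1 := (hr i (by omega)).2
        have h2 := (hr j (by omega)).2
        exact (hp.inj 0 0 i j (by omega) (by omega) (by rw [h1, h2, e])).2
      · intro i j hi hj
        have h1 := (hr i (by omega)).2
        have h2 := (hr j (by omega)).2
        have h3 := hp.adj 0 0 i j (by omega) (by omega)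
        rw [h1, h2] at h3
        rw [show H.Adj (r i) (r j) ↔ (MG H R).Adj (Sum.inl (r i)) (Sum.inl (r j)) from Iff.rfl, h3]
        constructor
        · rintro (⟨_, h⟩ | ⟨h, _⟩)
          · exact h
          · exact absurd rfl h
        · intro h
          exact Or.inl ⟨rfl, h⟩
      · ext v
        rw [hFm]
        constructor
        · rintro ⟨x, hx, e⟩
          exact ⟨x, by omega, e⟩
        · rintro ⟨x, hx, e⟩
          exact ⟨x, by omega, e⟩
    exact ip_cn this
  -- the root is not in the prism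
  have hFn : ∀ j y, y ≤ n j → (Sum.inr F : V ⊕ Set V) ≠ g j y := by
    intro j y hy e
    have h1 : (Sum.inr F : V ⊕ Set V) ∈ vI n g := by rw [e]; exact mem_vI hy
    have h2 : (Sum.inl (r 0) : V ⊕ Set V) ∈ vI n g := by
      rw [← (hr 0 (by omega)).2]; exact mem_vI (Nat.zero_le _)
    exact (hM.sp F h1 (r 0) (hr 0 (by omega)).1 h2).1 ((hFm _).2 ⟨0, by omega, rfl⟩)
  -- the neighbours of the root in the prism
  have key : ∀ j y, y ≤ n j → ((MG H R).Adj (Sum.inr F) (g j y) ↔
      ¬ InR R (g j y) ∧ ∃ x, x < l ∧ (MG H R).Adj (g 0 x) (g j y)) := by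
    intro j y hy
    constructor
    · intro h
      obtain ⟨a, ha, hs⟩ := root_adj h
      obtain ⟨haR, _, _, f, hf, haf⟩ := hs
      obtain ⟨x, hx, rfl⟩ := (hFm _).1 hf
      refine ⟨?_, x, hx, ?_⟩
      · rw [ha]
        exact fun h => haR (InR.inl_iff.1 h)
      · rw [ha, (hr x hx).2]
        exact mg_ll.2 haf.symm
    · rintro ⟨hnR, x, hx, hadj⟩
      rw [(hr x hx).2] at hadj
      obtain ⟨a, ha, hra⟩ := inR_adj (hr x hx).1 hadj
      rw [ha] at hnR ⊢
      exact mg_rl.2 ⟨fun h => hnR (InR.inl_iff.2 h), hFR, hFC, r x, (hFm _).2 ⟨x, hx, rfl⟩,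
        hra.symm⟩
  have key0 : ∀ y, l ≤ y → y ≤ n 0 → ((MG H R).Adj (Sum.inr F) (g 0 y) ↔ y = l) := by
    intro y hy1 hy2
    rw [key 0 y hy2]
    constructor
    · rintro ⟨_, x, hx, hadj⟩
      rw [hp.adj 0 0 x y (by omega) hy2] at hadj
      rcases hadj with ⟨_, h⟩ | ⟨h, _⟩
      · omega
      · exact absurd rfl h
    · rintro rfl
      refine ⟨hlR, y - 1, by omega, ?_⟩
      rw [hp.adj 0 0 (y - 1) y (by omega) hy2]
      exact Or.inl ⟨rfl, Or.inl (by omega)⟩
  have corner : ∀ j, j ≠ 0 → ¬ InR R (g j 0) := by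
    intro j hj
    fin_cases j
    · exact absurd rfl hj
    · exact h1R
    · exact h2R
  have key1 : ∀ j y, j ≠ 0 → y ≤ n j → ((MG H R).Adj (Sum.inr F) (g j y) ↔ y = 0) := by
    intro j y hj hy
    rw [key j y hy]
    constructor
    · rintro ⟨_, x, hx, hadj⟩
      rw [hp.adj 0 j x y (by omega) hy] at hadj
      rcases hadj with ⟨h, _⟩ | ⟨_, h | h⟩
      · exact absurd h.symm hj
      · exact h.2
      · omega
    · rintro rfl
      refine ⟨corner j hj, 0, by omega, ?_⟩
      rw [hp.adj 0 j 0 0 (Nat.zero_le _) (Nat.zero_le _)]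
      exact Or.inr ⟨fun h => hj h.symm, Or.inl ⟨rfl, rfl⟩⟩
  -- the new rung
  obtain ⟨m, hm⟩ : ∃ m, m = n 0 - l + 1 := ⟨_, rfl⟩
  obtain ⟨h, hh⟩ : ∃ h : ℕ → V ⊕ Set V, h = fun x => if x = 0 then Sum.inr F else g 0 (l + x - 1) :=
    ⟨_, rfl⟩
  have hh0 : h 0 = Sum.inr F := by rw [hh]; simp
  have hh1 : ∀ x, x ≠ 0 → h x = g 0 (l + x - 1) := by
    intro x hx
    rw [hh]
    simp [hx]
  have hodm : Odd m := by
    have h0 := hM.odd 0
    rw [Nat.odd_iff] at *
    omega
  have hPF : PF (MG H R) m h := by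
    constructor
    · intro i j hi hj e
      rcases Nat.eq_zero_or_pos i with h0 | h0 <;> rcases Nat.eq_zero_or_pos j with h0' | h0'
      · rw [h0, h0']
      · rw [h0, hh0, hh1 j (by omega)] at e
        exact absurd e (hFn 0 _ (by omega))
      · rw [h0', hh0, hh1 i (by omega)] at e
        exact absurd e.symm (hFn 0 _ (by omega))
      · rw [hh1 i (by omega), hh1 j (by omega)] at e
        have := (hp.inj 0 0 _ _ (by omega) (by omega) e).2
        omega
    · intro i j hi hj
      rcases Nat.eq_zero_or_pos i with h0 | h0 <;> rcases Nat.eq_zero_or_pos j with h0' | h0'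
      · rw [h0, h0']
        constructor
        · intro h; exact absurd h ((MG H R).loopless.irrefl _)
        · intro h; omega
      · rw [h0, hh0, hh1 j (by omega), key0 _ (by omega) (by omega)]
        omega
      · rw [h0', hh0, hh1 i (by omega), SimpleGraph.adj_comm, key0 _ (by omega) (by omega)]
        omega
      · rw [hh1 i (by omega), hh1 j (by omega), hp.adj 0 0 _ _ (by omega) (by omega)]
        constructor
        · rintro (⟨_, h⟩ | ⟨h, _⟩)
          · omega
          · exact absurd rfl h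
        · intro h
          exact Or.inl ⟨rfl, by omega⟩
  have hcross : ∀ j k y, j ≠ 0 → k ≤ m → y ≤ n j → h k ≠ g j y ∧
      ((MG H R).Adj (h k) (g j y) ↔ (k = 0 ∧ y = 0) ∨ (k = m ∧ y = n j)) := by
    intro j k y hj hk hy
    rcases Nat.eq_zero_or_pos k with h0 | h0
    · rw [h0, hh0]
      refine ⟨hFn j y hy, ?_⟩
      rw [key1 j y hj hy]
      omega
    · rw [hh1 k (by omega)]
      refine ⟨?_, ?_⟩
      · intro e
        exact hj (hp.inj 0 j _ _ (by omega) hy e).1.symm
      · rw [hp.adj 0 j _ _ (by omega) hy]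
        constructor
        · rintro (⟨h, _⟩ | ⟨_, h⟩)
          · exact absurd h.symm hj
          · omega
        · intro h
          exact Or.inr ⟨fun h => hj h.symm, by omega⟩
  have hnew := hPR _ _ n g m h hp (by omega) hPF hcross
  have hnewodd : ∀ i, Odd (Function.update n 0 m i) := by
    intro i
    by_cases hi : i = 0
    · subst hi
      rw [Function.update_self]
      exact hodm
    · rw [Function.update_of_ne hi]
      exact hM.odd i
  -- the vertices of the new prism
  have hnewv : ∀ v, v ∈ vI (Function.update n 0 m) (Function.update g 0 h) → v = Sum.inr F ∨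
      ∃ j y, y ≤ n j ∧ g j y = v ∧ (j = 0 → l ≤ y) := by
    rintro v ⟨i, k, hk, rfl⟩
    by_cases hi : i = 0
    · subst hi
      rw [Function.update_self] at hk
      rw [Function.update_self]
      rcases Nat.eq_zero_or_pos k with h0 | h0
      · left
        rw [h0, hh0]
      · right
        refine ⟨0, l + k - 1, by omega, (hh1 k (by omega)).symm, fun _ => by omega⟩
    · rw [Function.update_of_ne hi] at hk
      rw [Function.update_of_ne hi]
      exact Or.inr ⟨i, k, hk, rfl, fun h => absurd h hi⟩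
  have hnewo : ∀ s, (Sum.inl s : V ⊕ Set V) ∈ vI (Function.update n 0 m) (Function.update g 0 h) →
      ∃ j y, y ≤ n j ∧ g j y = Sum.inl s ∧ (j = 0 → l ≤ y) := by
    intro s hs
    rcases hnewv _ hs with h | h
    · exact absurd h (fun h => by cases h)
    · exact h
  have hSp : Sp H R (vI (Function.update n 0 m) (Function.update g 0 h)) := by
    intro F' hF' s hs hsZ
    obtain ⟨j, y, hy, he, hjy⟩ := hnewo s hsZ
    rcases hnewv _ hF' with h | ⟨j', y', hy', he', _⟩
    · have hFF : F' = F := Sum.inr.inj h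
      subst hFF
      refine ⟨?_, ?_⟩
      · intro hsF
        obtain ⟨x, hx, hxs⟩ := (hFm _).1 hsF
        have h1 := (hr x hx).2
        rw [hxs, ← he] at h1
        have h2 := hp.inj 0 j x y (by omega) hy h1
        have := hjy h2.1.symm
        omega
      · intro f hf hadj
        obtain ⟨x, hx, hxf⟩ := (hFm _).1 hf
        have h1 : (MG H R).Adj (g 0 x) (g j y) := by
          rw [(hr x hx).2, he, hxf]
          exact mg_ll.2 hadj.symm
        rw [hp.adj 0 j x y (by omega) hy] at h1
        rcases h1 with ⟨h0, h1⟩ | ⟨h0, h1 | h1⟩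
        · have h2 := hjy h0.symm
          have h3 : y = l := by omega
          subst h0
          rw [h3] at he
          exact hlR ⟨s, hs, he⟩
        · have h2 : j ≠ 0 := fun h => h0 h.symm
          rw [h1.2] at he
          exact corner j h2 ⟨s, hs, he⟩
        · omega
    · have h1 : (Sum.inr F' : V ⊕ Set V) ∈ vI n g := by rw [← he']; exact mem_vI hy'
      have h2 : (Sum.inl s : V ⊕ Set V) ∈ vI n g := by rw [← he]; exact mem_vI hy
      exact hM.sp F' h1 s hs h2
  have hle := hM.mn _ _ hnew hnewodd hSp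
  have hlt : (rv R (vI (Function.update n 0 m) (Function.update g 0 h))).ncard <
      (rv R (vI n g)).ncard := by
    refine Set.ncard_lt_ncard ?_ (Set.toFinite _)
    rw [Set.ssubset_iff_of_subset]
    · refine ⟨r 0, ⟨(hr 0 (by omega)).1, ?_⟩, ?_⟩
      · rw [← (hr 0 (by omega)).2]; exact mem_vI (Nat.zero_le _)
      · rintro ⟨_, hmem⟩
        obtain ⟨j, y, hy, he, hjy⟩ := hnewo _ hmem
        have h1 := (hr 0 (by omega)).2
        rw [← he] at h1
        have h2 := hp.inj 0 j 0 y (Nat.zero_le _) hy h1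
        have := hjy h2.1.symm
        omega
    · rintro s ⟨hs1, hs2⟩
      obtain ⟨j, y, hy, he, _⟩ := hnewo s hs2
      exact ⟨hs1, by rw [← he]; exact mem_vI hy⟩
  omega

end Pool.Agent.H27.ER3
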